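import Pool.Agent.Helper9.CC.Stm

/-!
Project CC, package GENR: the primitive generators of the cone.
-/

set_option autoImplicit false

namespace Pool.Agent.Helper85.CC

open Pool.Agent.Helper9.CC

/-- The generators. -/
noncomputable def gv {l : ℕ} (μ : Fin l → ℚ) : Fin (l + 1) → NS l :=
  Fin.cons ((0 : Fin l → ℝ), (1 : ℝ))
    (fun j => ((Pi.single j ((μ j).den : ℝ) : Fin l → ℝ), (((-(μ j).num : ℤ)) : ℝ)))

theorem gv_zero {l : ℕ} (μ : Fin l → ℚ) : gv μ 0 = (0, 1) := rfl

theorem gv_succ {l : ℕ} (μ : Fin l → ℚ) (j : Fin l) :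
    gv μ j.succ = (Pi.single j ((μ j).den : ℝ), (((-(μ j).num : ℤ)) : ℝ)) := rfl

theorem gv_sum {l : ℕ} (μ : Fin l → ℚ) (c : Fin (l + 1) → ℝ) :
    ∑ i, c i • gv μ i = (fun j => c j.succ * (μ j).den, c 0 - ∑ j, c j.succ * (μ j).num) := by
  rw [Fin.sum_univ_succ]
  apply Prod.ext
  · funext k
    simp only [gv_zero, gv_succ, Prod.fst_add, Prod.smul_fst, Prod.fst_sum, Pi.add_apply,
      Pi.smul_apply, Pi.zero_apply, smul_eq_mul, mul_zero, zero_add, Finset.sum_apply]
    rw [Finset.sum_eq_single k]
    · simp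
    · intro b _ hb
      simp [Pi.single_apply, Ne.symm hb]
    · intro h
      exact absurd (Finset.mem_univ k) h
  · simp only [gv_zero, gv_succ, Prod.snd_add, Prod.smul_snd, Prod.snd_sum, smul_eq_mul, mul_one,
      Int.cast_neg, mul_neg, Finset.sum_neg_distrib]
    ring

theorem den_pos {l : ℕ} (μ : Fin l → ℚ) (j : Fin l) : (0 : ℝ) < (μ j).den := by
  exact_mod_cast (μ j).den_pos

theorem mu_eq {l : ℕ} (μ : Fin l → ℚ) (j : Fin l) : (μ j : ℝ) = (μ j).num / (μ j).den := by
  exact_mod_cast (Rat.num_div_den (μ j)).symm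

theorem mem_lat_prim {l : ℕ} (μ : Fin l → ℚ) (i : Fin (l + 1)) (c : ℝ) (hc : 0 < c)
    (h : c • gv μ i ∈ Lat l) : 1 ≤ c := by
  have key : ∀ k : ℤ, c = k → 1 ≤ c := by
    intro k hk
    rw [hk] at hc ⊢
    have : (0 : ℤ) < k := by exact_mod_cast hc
    exact_mod_cast this
  refine Fin.cases ?_ ?_ i h
  · rintro ⟨_, n, hn⟩
    rw [gv_zero] at hn
    simp only [Prod.smul_snd, smul_eq_mul, mul_one] at hn
    exact key n hn
  · rintro j ⟨h1, n, hn⟩
    obtain ⟨m, hm⟩ := h1 j
    rw [gv_succ] at hm hn
    simp only [Prod.smul_fst, Prod.smul_snd, smul_eq_mul, Pi.smul_apply, Pi.single_eq_same] at hm hn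
    have hcop : IsCoprime ((μ j).num) ((μ j).den : ℤ) := by
      rw [Int.isCoprime_iff_gcd_eq_one]
      have := (μ j).reduced
      simpa [Int.gcd, Nat.Coprime] using this
    obtain ⟨u, w, huw⟩ := hcop
    apply key (-u * n + w * m)
    have h2 : (u : ℝ) * (μ j).num + w * (μ j).den = 1 := by exact_mod_cast huw
    push_cast
    push_cast at hn
    rw [← hn, ← hm]
    linear_combination (-c) * h2

/-- Package GENR. -/
theorem genr : S_GENR := by
  intro l μ
  refine ⟨gv μ, ?_, ?_, mem_lat_prim μ, ?_, rfl, ?_⟩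
  · rw [Fintype.linearIndependent_iff]
    intro g hg
    rw [gv_sum] at hg
    have h1 : ∀ j : Fin l, g j.succ = 0 := by
      intro j
      have h := congrFun (congrArg Prod.fst hg) j
      simp only [Prod.fst_zero, Pi.zero_apply] at h
      rcases mul_eq_zero.mp h with h | h
      · exact h
      · exact absurd h (den_pos μ j).ne'
    have h0 : g 0 = 0 := by
      have h := congrArg Prod.snd hg
      simp only [h1, zero_mul, Finset.sum_const_zero, sub_zero, Prod.snd_zero] at h
      exact h
    intro i
    exact Fin.cases h0 h1 i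
  · intro i
    refine Fin.cases ?_ ?_ i
    · exact ⟨fun j => ⟨0, by simp [gv_zero]⟩, 1, by simp [gv_zero]⟩
    · intro j
      refine ⟨fun k => ?_, -(μ j).num, by rw [gv_succ]⟩
      by_cases hk : k = j
      · subst hk
        exact ⟨(μ k).den, by rw [gv_succ]; simp⟩
      · exact ⟨0, by rw [gv_succ]; simp [Pi.single_apply, hk]⟩
  · apply Set.Subset.antisymm
    · rintro x ⟨n, c, v, hc, hv, rfl⟩
      have hg : ∀ i : Fin n, (∀ j, 0 ≤ (v i).1 j) ∧ 0 ≤ ∑ j, (v i).1 j * (μ j : ℝ) + (v i).2 := by
        intro i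
        obtain ⟨k, hk⟩ := hv i
        rw [← hk]
        refine Fin.cases ?_ ?_ k
        · simp [gv_zero]
        · intro j
          rw [gv_succ]
          refine ⟨fun k => ?_, ?_⟩
          · by_cases hk : k = j
            · subst hk
              simp
            · simp [Pi.single_apply, hk]
          · rw [Finset.sum_eq_single j]
            · rw [mu_eq]
              have := (den_pos μ j).ne'
              simp only [Pi.single_eq_same, Int.cast_neg]
              rw [mul_div_cancel₀ _ this]
              simp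
            · intro b _ hb
              simp [Pi.single_apply, hb]
            · intro h
              exact absurd (Finset.mem_univ j) h
      refine ⟨fun j => ?_, ?_⟩
      · simp only [Prod.fst_sum, Prod.smul_fst, Finset.sum_apply, Pi.smul_apply, smul_eq_mul]
        exact Finset.sum_nonneg fun i _ => mul_nonneg (hc i) ((hg i).1 j)
      · have e : ∑ j, (∑ i, c i • v i).1 j * (μ j : ℝ) + (∑ i, c i • v i).2 =
            ∑ i, c i * (∑ j, (v i).1 j * (μ j : ℝ) + (v i).2) := by
          simp only [Prod.fst_sum, Prod.smul_fst, Finset.sum_apply, Pi.smul_apply, smul_eq_mul,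
            Prod.snd_sum, Prod.smul_snd, mul_add, Finset.sum_add_distrib, Finset.sum_mul,
            Finset.mul_sum]
          rw [Finset.sum_comm]
          simp only [mul_assoc]
        rw [e]
        exact Finset.sum_nonneg fun i _ => mul_nonneg (hc i) (hg i).2
    · rintro x ⟨h1, h2⟩
      refine ⟨l + 1, Fin.cons (∑ j, x.1 j * (μ j : ℝ) + x.2) (fun j => x.1 j / (μ j).den), gv μ,
        ?_, fun i => ⟨i, rfl⟩, ?_⟩
      · intro i
        refine Fin.cases h2 ?_ i
        intro j
        exact div_nonneg (h1 j) (den_pos μ j).le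
      · rw [gv_sum]
        apply Prod.ext
        · funext j
          simp only [Fin.cons_succ]
          rw [div_mul_cancel₀ _ (den_pos μ j).ne']
        · simp only [Fin.cons_succ, Fin.cons_zero]
          have : ∀ j, x.1 j / (μ j).den * (μ j).num = x.1 j * (μ j : ℝ) := by
            intro j
            rw [mu_eq]
            ring
          simp only [this]
          ring
  · intro j
    refine ⟨(μ j).den, (μ j).den_pos, -(μ j).num, ?_, ?_⟩
    · rw [mu_eq]
      have := (den_pos μ j).ne'
      rw [mul_div_cancel₀ _ this]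
      simp
    · exact gv_succ μ j

end Pool.Agent.Helper85.CC
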