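import Pool.Agent.Helper9.CC.Stm

/-!
Project CC, package SYM: symmetric powers.
-/

set_option autoImplicit false

namespace Pool.Agent.Helper85.CC

open Matrix MvPolynomial

section SymMat

variable {K : Type} [Field K] {r : ℕ}

/-- Substitution of linear forms. -/
noncomputable def sub (M : Matrix (Fin r) (Fin r) K) :
    MvPolynomial (Fin r) K →ₐ[K] MvPolynomial (Fin r) K :=
  aeval (fun j => ∑ i, C (M j i) * X i)

theorem sub_X (M : Matrix (Fin r) (Fin r) K) (j : Fin r) :
    sub M (X j) = ∑ i, C (M j i) * X i := by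
  simp [sub]

theorem sub_mul (M N : Matrix (Fin r) (Fin r) K) (s : MvPolynomial (Fin r) K) :
    sub (M * N) s = sub N (sub M s) := by
  have : sub (M * N) = (sub N).comp (sub M) := by
    apply MvPolynomial.algHom_ext
    intro j
    rw [AlgHom.comp_apply, sub_X, sub_X, map_sum]
    simp only [map_mul, sub_X, Matrix.mul_apply, Finset.sum_mul, Finset.mul_sum, map_sum]
    rw [Finset.sum_comm]
    refine Finset.sum_congr rfl fun k _ => Finset.sum_congr rfl fun i _ => ?_
    have : (sub N) (C (M j k)) = C (M j k) := by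
      rw [← MvPolynomial.algebraMap_eq, AlgHom.commutes]
    rw [this, mul_assoc]
  rw [this]
  rfl

theorem sub_one (s : MvPolynomial (Fin r) K) : sub 1 s = s := by
  have : sub (1 : Matrix (Fin r) (Fin r) K) = AlgHom.id K _ := by
    apply MvPolynomial.algHom_ext
    intro j
    rw [sub_X, Finset.sum_eq_single j]
    · simp
    · intro b _ hb
      simp [Matrix.one_apply, Ne.symm hb]
    · intro h
      exact absurd (Finset.mem_univ j) h
  rw [this]
  rfl

theorem sub_hom (M : Matrix (Fin r) (Fin r) K) {q : ℕ} {s : MvPolynomial (Fin r) K}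
    (hs : s.IsHomogeneous q) : (sub M s).IsHomogeneous q := by
  have h : ∀ j, (∑ i, C (M j i) * X i : MvPolynomial (Fin r) K).IsHomogeneous 1 := by
    intro j
    apply IsHomogeneous.sum
    intro i _
    have := (isHomogeneous_C (Fin r) (M j i)).mul (isHomogeneous_X K i)
    simpa using this
  have := hs.aeval (fun j => ∑ i, C (M j i) * X i) h
  simpa [sub] using this

/-- The monomials of degree `q`. -/
abbrev Mo (r q : ℕ) : Type := {α : Fin r →₀ ℕ // α ∈ (Finset.univ : Finset (Fin r)).finsuppAntidiag q}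

theorem mem_mo {q : ℕ} (α : Fin r →₀ ℕ) :
    α ∈ (Finset.univ : Finset (Fin r)).finsuppAntidiag q ↔ ∑ i, α i = q := by
  simp [Finset.mem_finsuppAntidiag]

theorem mo_sum {q : ℕ} (α : Mo r q) : ∑ i, α.1 i = q := (mem_mo α.1).1 α.2

theorem mono_hom {q : ℕ} (α : Mo r q) : (monomial α.1 (1 : K)).IsHomogeneous q := by
  apply isHomogeneous_monomial
  rw [Finsupp.degree_eq_sum]
  exact mo_sum α

theorem hom_mem {q : ℕ} {s : MvPolynomial (Fin r) K} (hs : s.IsHomogeneous q) {α : Fin r →₀ ℕ}
    (h : coeff α s ≠ 0) : α ∈ (Finset.univ : Finset (Fin r)).finsuppAntidiag q := by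
  rw [mem_mo]
  have := hs h
  rw [Finsupp.weight_apply, Finsupp.sum_fintype _ _ (by simp)] at this
  simpa using this

theorem hom_eq {q : ℕ} {s : MvPolynomial (Fin r) K} (hs : s.IsHomogeneous q) :
    s = ∑ α : Mo r q, coeff α.1 s • monomial α.1 (1 : K) := by
  apply MvPolynomial.ext
  intro β
  rw [coeff_sum]
  simp only [coeff_smul, coeff_monomial, smul_eq_mul, mul_ite, mul_one, mul_zero]
  by_cases hβ : β ∈ (Finset.univ : Finset (Fin r)).finsuppAntidiag q
  · rw [Finset.sum_eq_single ⟨β, hβ⟩]
    · simp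
    · intro γ _ hγ
      rw [if_neg]
      intro h
      exact hγ (Subtype.ext h)
    · intro h
      exact absurd (Finset.mem_univ _) h
  · rw [Finset.sum_eq_zero]
    · by_contra h
      exact hβ (hom_mem hs h)
    · intro γ _
      rw [if_neg]
      rintro rfl
      exact hβ γ.2

/-- The matrix of a symmetric power. -/
noncomputable def sm (q : ℕ) (M : Matrix (Fin r) (Fin r) K) : Matrix (Mo r q) (Mo r q) K :=
  fun α β => coeff β.1 (sub M (monomial α.1 1))

theorem sm_mul (q : ℕ) (M N : Matrix (Fin r) (Fin r) K) : sm q (M * N) = sm q M * sm q N := by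
  ext α β
  rw [Matrix.mul_apply]
  change coeff β.1 (sub (M * N) (monomial α.1 1)) = _
  rw [sub_mul, hom_eq (sub_hom M (mono_hom α)), map_sum, coeff_sum]
  simp only [map_smul, coeff_smul, smul_eq_mul]
  refine Finset.sum_congr rfl fun γ _ => ?_
  have : coeff γ.1 (∑ x : Mo r q, coeff x.1 ((sub M) ((monomial α.1) 1)) • (monomial x.1) 1) =
      coeff γ.1 (sub M (monomial α.1 1)) := by
    rw [← hom_eq (sub_hom M (mono_hom α))]
  rfl

theorem sm_one (q : ℕ) : sm q (1 : Matrix (Fin r) (Fin r) K) = 1 := by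
  ext α β
  change coeff β.1 (sub 1 (monomial α.1 1)) = _
  rw [sub_one, coeff_monomial, Matrix.one_apply]
  by_cases h : α = β
  · simp [h]
  · rw [if_neg h, if_neg]
    intro h'
    exact h (Subtype.ext h')

theorem sub_monomial (M : Matrix (Fin r) (Fin r) K) (α : Fin r →₀ ℕ) :
    sub M (monomial α 1) = ∏ i, (∑ k, C (M i k) * X k) ^ α i := by
  rw [sub, aeval_monomial, map_one, one_mul, Finsupp.prod_fintype]
  intro i
  exact pow_zero _

theorem sub_diag (d : Fin r → K) (α : Fin r →₀ ℕ) :
    sub (diagonal d) (monomial α 1) = monomial α (∏ i, d i ^ α i) := by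
  rw [sub_monomial]
  have : ∀ i, (∑ k, C (diagonal d i k) * X k : MvPolynomial (Fin r) K) = C (d i) * X i := by
    intro i
    rw [Finset.sum_eq_single i]
    · simp
    · intro b _ hb
      simp [Matrix.diagonal_apply, Ne.symm hb]
    · intro h
      exact absurd (Finset.mem_univ _) h
  simp only [this, mul_pow, Finset.prod_mul_distrib]
  rw [monomial_eq, map_prod, Finsupp.prod_fintype]
  · simp
  · intro i
    exact pow_zero _

theorem sm_diag (q : ℕ) (d : Fin r → K) :
    sm q (diagonal d) = diagonal (fun α => ∏ i, d i ^ α.1 i) := by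
  ext α β
  change coeff β.1 (sub (diagonal d) (monomial α.1 1)) = _
  rw [sub_diag, coeff_monomial, Matrix.diagonal_apply]
  by_cases h : α = β
  · simp [h]
  · rw [if_neg h, if_neg]
    intro h'
    exact h (Subtype.ext h')

theorem sum_mo (q : ℕ) (i j : Fin r) : ∑ α : Mo r q, α.1 i = ∑ α : Mo r q, α.1 j := by
  let e : Equiv.Perm (Fin r) := Equiv.swap i j
  have hm : ∀ α : Fin r →₀ ℕ, α ∈ (Finset.univ : Finset (Fin r)).finsuppAntidiag q →
      α.equivMapDomain e ∈ (Finset.univ : Finset (Fin r)).finsuppAntidiag q := by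
    intro α h
    rw [mem_mo] at h ⊢
    rw [← h]
    simp only [Finsupp.equivMapDomain_apply]
    exact Equiv.sum_comp e.symm (fun i => α i)
  have he : ∀ α : Fin r →₀ ℕ, (α.equivMapDomain e).equivMapDomain e = α := by
    intro α
    ext k
    simp [Finsupp.equivMapDomain_apply, e]
  let f : Mo r q ≃ Mo r q :=
    { toFun := fun α => ⟨α.1.equivMapDomain e, hm α.1 α.2⟩
      invFun := fun α => ⟨α.1.equivMapDomain e, hm α.1 α.2⟩
      left_inv := fun α => Subtype.ext (he α.1)
      right_inv := fun α => Subtype.ext (he α.1) }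
  rw [← Equiv.sum_comp f (fun α => α.1 i)]
  refine Finset.sum_congr rfl fun α _ => ?_
  change (α.1.equivMapDomain e) i = α.1 j
  simp [Finsupp.equivMapDomain_apply, e]

theorem sum_mo_eq (q : ℕ) (i : Fin r) :
    r * ∑ α : Mo r q, α.1 i = q * Fintype.card (Mo r q) := by
  have h : ∑ j : Fin r, ∑ α : Mo r q, α.1 j = r * ∑ α : Mo r q, α.1 i := by
    rw [Finset.sum_congr rfl fun j _ => sum_mo q j i]
    simp
  rw [← h, Finset.sum_comm]
  simp only [mo_sum]
  simp [mul_comm]

theorem det_sm_diag (q : ℕ) (d : Fin r → K) :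
    (sm q (diagonal d)).det ^ r = (diagonal d).det ^ (q * Fintype.card (Mo r q)) := by
  rw [sm_diag, det_diagonal, det_diagonal, Finset.prod_comm, ← Finset.prod_pow,
    ← Finset.prod_pow]
  refine Finset.prod_congr rfl fun i _ => ?_
  rw [Finset.prod_pow_eq_pow_sum, ← pow_mul, mul_comm, sum_mo_eq]

theorem det_sm_ne (q : ℕ) {M : Matrix (Fin r) (Fin r) K} (h : M.det ≠ 0) : (sm q M).det ≠ 0 := by
  have h1 : sm q M * sm q M⁻¹ = 1 := by
    rw [← sm_mul, Matrix.mul_nonsing_inv _ (isUnit_iff_ne_zero.mpr h), sm_one]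
  have h2 := congrArg Matrix.det h1
  rw [det_mul, det_one] at h2
  intro h3
  rw [h3, zero_mul] at h2
  exact zero_ne_one h2

theorem det_sm_transvection [CharZero K] (q : ℕ) (t : TransvectionStruct (Fin r) K) :
    (sm q t.toMatrix).det = 1 := by
  obtain ⟨i, j, hij, c⟩ := t
  -- conjugate with a diagonal matrix
  let d : Fin r → K := fun k => if k = i then 2 else 1
  have hd : (diagonal d).det ≠ 0 := by
    rw [det_diagonal]
    apply Finset.prod_ne_zero_iff.2
    intro k _
    simp only [d]
    split_ifs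
    · exact two_ne_zero
    · exact one_ne_zero
  have key : diagonal d * transvection i j c = transvection i j c * transvection i j c * diagonal d := by
    rw [transvection_mul_transvection_same i j hij]
    ext a b
    rw [diagonal_mul, mul_diagonal]
    simp only [transvection, Matrix.add_apply, Matrix.one_apply, Matrix.single_apply, d]
    by_cases hai : a = i
    · subst hai
      by_cases hb : b = j
      · subst hb
        simp [hij, hij.symm]
        ring
      · by_cases hab : a = b
        · subst hab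
          simp [Ne.symm hb]
        · simp [hab, Ne.symm hb]
    · by_cases hab : a = b
      · subst hab
        simp [hai, Ne.symm hai]
      · simp [hai, hab, Ne.symm hai]
  have h1 := congrArg (fun M => (sm q M).det) key
  simp only [sm_mul, det_mul] at h1
  have h2 := det_sm_ne q hd
  have h3 : (sm q (transvection i j c)).det ≠ 0 := det_sm_ne q (by simp [det_transvection_of_ne i j hij])
  have h4 : (sm q (diagonal d)).det * (sm q (transvection i j c)).det * 1 =
      (sm q (diagonal d)).det * (sm q (transvection i j c)).det * (sm q (transvection i j c)).det := by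
    linear_combination h1
  exact (mul_left_cancel₀ (mul_ne_zero h2 h3) h4).symm

/-- The determinant of the symmetric power. -/
theorem det_sm [CharZero K] (q : ℕ) (M : Matrix (Fin r) (Fin r) K) (h : M.det ≠ 0) :
    (sm q M).det ^ r = M.det ^ (q * Fintype.card (Mo r q)) := by
  refine diagonal_transvection_induction_of_det_ne_zero
    (fun M => (sm q M).det ^ r = M.det ^ (q * Fintype.card (Mo r q))) M h ?_ ?_ ?_
  · intro D _
    exact det_sm_diag q D
  · intro t
    rw [det_sm_transvection, TransvectionStruct.det, one_pow, one_pow]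
  · intro A B hA hB iA iB
    rw [sm_mul, det_mul, mul_pow, iA, iB, det_mul, mul_pow]

end SymMat

section Bun

open FF Module Pool.Agent.Helper9.FJ Pool.Agent.Helper9.CC

variable {K : Type} [Field K] [Algebra ℂ K]

theorem exists_ord (P : Place ℂ K) (n : ℤ) : ∃ u : K, u ≠ 0 ∧ P.ord u = n ∧ (n = 0 → u = 1) := by
  obtain ⟨t, ht, h1⟩ := P.surj
  refine ⟨t ^ n, zpow_ne_zero n ht, ?_, ?_⟩
  · rw [P.ord_zpow, h1, mul_one]
  · rintro rfl
    exact zpow_zero t

/-- An element of order `N P`. -/
noncomputable def un (N : Place ℂ K →₀ ℤ) (P : Place ℂ K) : K := (exists_ord P (N P)).choose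

theorem un_ne (N : Place ℂ K →₀ ℤ) (P : Place ℂ K) : un N P ≠ 0 :=
  (exists_ord P (N P)).choose_spec.1

theorem un_ord (N : Place ℂ K →₀ ℤ) (P : Place ℂ K) : P.ord (un N P) = N P :=
  (exists_ord P (N P)).choose_spec.2.1

theorem un_one (N : Place ℂ K →₀ ℤ) (P : Place ℂ K) (h : N P = 0) : un N P = 1 :=
  (exists_ord P (N P)).choose_spec.2.2 h

/-- The symmetric power of a bundle, twisted. -/
noncomputable def symB {r : ℕ} [CharZero K] (E : Bundle K r) (q : ℕ) (N : Place ℂ K →₀ ℤ) :
    Bundle K (Fintype.card (Mo r q)) where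
  B P := (un N P)⁻¹ • Matrix.reindex (Fintype.equivFin (Mo r q)) (Fintype.equivFin (Mo r q))
    (sm q (E.B P))
  det_ne P := by
    rw [det_smul, det_reindex_self]
    exact mul_ne_zero (pow_ne_zero _ (inv_ne_zero (un_ne N P))) (det_sm_ne q (E.det_ne P))
  fin := (E.fin.union N.finite_support).subset fun P hP => by
    by_contra h
    rw [Set.mem_union, not_or] at h
    apply hP
    have h1 : E.B P = 1 := by
      by_contra h'
      exact h.1 h'
    have h2 : N P = 0 := by
      by_contra h'
      exact h.2 (by simpa using h')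
    rw [h1, sm_one, un_one N P h2]
    simp [Matrix.submatrix_one_equiv]

theorem symB_B {r : ℕ} [CharZero K] (E : Bundle K r) (q : ℕ) (N : Place ℂ K →₀ ℤ)
    (P : Place ℂ K) : (symB E q N).B P = (un N P)⁻¹ • Matrix.reindex (Fintype.equivFin (Mo r q))
      (Fintype.equivFin (Mo r q)) (sm q (E.B P)) := rfl

theorem symB_det {r : ℕ} [CharZero K] (E : Bundle K r) (q : ℕ) (N : Place ℂ K →₀ ℤ)
    (P : Place ℂ K) : (r : ℤ) * (symB E q N).detDiv P =
      (q * Fintype.card (Mo r q) : ℕ) * E.detDiv P + (r * Fintype.card (Mo r q) : ℕ) * N P := by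
  change (r : ℤ) * (-P.ord ((symB E q N).B P).det) =
    (q * Fintype.card (Mo r q) : ℕ) * (-P.ord (E.B P).det) + (r * Fintype.card (Mo r q) : ℕ) * N P
  have h1 := congrArg P.ord (det_sm q (E.B P) (E.det_ne P))
  rw [P.ord_pow, P.ord_pow] at h1
  have h2 : P.ord ((symB E q N).B P).det =
      -(Fintype.card (Mo r q) * N P) + P.ord (sm q (E.B P)).det := by
    rw [symB_B, det_smul, det_reindex_self, P.ord_mul (pow_ne_zero _ (inv_ne_zero (un_ne N P)))
      (det_sm_ne q (E.det_ne P)), P.ord_pow, P.ord_inv, un_ord]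
    simp
  rw [h2]
  push_cast
  push_cast at h1
  linear_combination (-1 : ℤ) * h1

theorem symB_deg {r : ℕ} [IsFF ℂ K] [CharZero K] (E : Bundle K r) (q : ℕ) (N : Place ℂ K →₀ ℤ) :
    (r : ℤ) * ddeg (symB E q N).detDiv =
      (q * Fintype.card (Mo r q) : ℕ) * ddeg E.detDiv + (r * Fintype.card (Mo r q) : ℕ) * ddeg N := by
  rw [← ddeg_nsmul, ← ddeg_nsmul, ← ddeg_nsmul, ← ddeg_add]
  congr 1
  apply Finsupp.ext
  intro P
  have := symB_det E q N P
  simpa using this

theorem symB_inv {r : ℕ} [CharZero K] (E : Bundle K r) (q : ℕ) (N : Place ℂ K →₀ ℤ)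
    (P : Place ℂ K) : ((symB E q N).B P)⁻¹ = un N P • Matrix.reindex (Fintype.equivFin (Mo r q))
      (Fintype.equivFin (Mo r q)) (sm q (E.B P)⁻¹) := by
  apply Matrix.inv_eq_right_inv
  rw [symB_B, Matrix.smul_mul, Matrix.mul_smul, smul_smul, inv_mul_cancel₀ (un_ne N P), one_smul]
  simp only [Matrix.reindex_apply]
  rw [Matrix.submatrix_mul_equiv, ← sm_mul,
    Matrix.mul_nonsing_inv _ (isUnit_iff_ne_zero.mpr (E.det_ne P)), sm_one,
    Matrix.submatrix_one_equiv]

/-- Package SYM. -/
theorem sym : S_SYM := by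
  intro K _ _ _ r E q N hr
  haveI : CharZero K := charZero_of_injective_algebraMap (algebraMap ℂ K).injective
  have hn : 0 < Fintype.card (Mo r q) := by
    apply Fintype.card_pos_iff.2
    refine ⟨⟨Finsupp.single ⟨0, hr⟩ q, ?_⟩⟩
    rw [mem_mo]
    simp [Finsupp.single_apply]
  refine ⟨Fintype.card (Mo r q), symB E q N, hn, ?_, ?_⟩
  · have h := symB_deg E q N
    have h' : (r : ℝ) * ddeg (symB E q N).detDiv =
        (q * Fintype.card (Mo r q)) * ddeg E.detDiv + (r * Fintype.card (Mo r q)) * ddeg N := by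
      exact_mod_cast h
    have hr' : (r : ℝ) ≠ 0 := by exact_mod_cast hr.ne'
    field_simp
    linear_combination h'
  · rintro N0 ⟨v, hv, hs⟩
    let e := Fintype.equivFin (Mo r q)
    let s : MvPolynomial (Fin r) K := ∑ α : Mo r q, v (e α) • monomial α.1 (1 : K)
    have hsh : s.IsHomogeneous q := by
      apply IsHomogeneous.sum
      intro α _
      have := (isHomogeneous_C (Fin r) (v (e α))).mul (mono_hom (K := K) α)
      rw [zero_add] at this
      rwa [smul_eq_C_mul]
    have hc : ∀ α : Mo r q, coeff α.1 s = v (e α) := by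
      intro α
      simp only [s, coeff_sum, coeff_smul, coeff_monomial, smul_eq_mul, mul_ite, mul_one, mul_zero]
      rw [Finset.sum_eq_single α]
      · simp
      · intro γ _ hγ
        rw [if_neg]
        intro h
        exact hγ (Subtype.ext h)
      · intro h
        exact absurd (Finset.mem_univ _) h
    refine ⟨s, ?_, hsh, ?_⟩
    · intro h0
      apply hv
      funext k
      have := hc (e.symm k)
      rw [h0, coeff_zero, Equiv.apply_symm_apply] at this
      exact this.symm
    · intro P β
      change Ge P (-(N + N0) P) (coeff β (sub (E.B P)⁻¹ s))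
      by_cases hβ : coeff β (sub (E.B P)⁻¹ s) = 0
      · exact Or.inl hβ
      · have hb := hom_mem (sub_hom (E.B P)⁻¹ hsh) hβ
        have h1 := hs P (e ⟨β, hb⟩)
        have h2 : Matrix.vecMul v ((symB E q N).B P)⁻¹ (e ⟨β, hb⟩) =
            un N P * coeff β (sub (E.B P)⁻¹ s) := by
          rw [symB_inv, Matrix.vecMul_smul, Pi.smul_apply, smul_eq_mul]
          congr 1
          simp only [s, map_sum, map_smul, coeff_sum, coeff_smul, smul_eq_mul]
          change ∑ k, v k * _ = _
          rw [← Equiv.sum_comp e]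
          refine Finset.sum_congr rfl fun α _ => ?_
          congr 1
          simp only [Matrix.reindex_apply, Matrix.submatrix_apply]
          change sm q (E.B P)⁻¹ (e.symm (e α)) (e.symm (e ⟨β, hb⟩)) = _
          rw [Equiv.symm_apply_apply, Equiv.symm_apply_apply]
          rfl
        rw [h2] at h1
        right
        rcases h1 with h1 | h1
        · exact absurd (mul_eq_zero.mp h1) (not_or.mpr ⟨un_ne N P, hβ⟩)
        · rw [P.ord_mul (un_ne N P) hβ, un_ord] at h1
          rw [Finsupp.add_apply]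
          linarith

end Bun

end Pool.Agent.Helper85.CC
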